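import Pool.Agent.TH349.HI.Final

/-!
# MP_5f0aae_co: closed form for the (unlabeled) homeomorphically irreducible graphs

`h p q` is the number of isomorphism classes of graphs with `p` points and `q` lines and no point
of degree two.  The generating function in the variables `x` (lines) and `y` (points) is

`∏ k ≥ 1, (1 - (xy)^(4k+1)) * ∑ N, y^N * ∑ (partitions of N with j_k parts k)`
`  ∏ k, λ_k^(j_k) α_k^(⌊(k-1)/2⌋ j_k + k (j_k choose 2)) (β_(k/2)^(j_k) for k even) / (k^(j_k) j_k!)`
`  * ∏ k < l, α_lcm(k,l)^(gcd(k,l) j_k j_l)`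

with, for `x` and `y` replaced by `x^l` and `y^l`,

`α = (1+x) ∏ (m odd) (1 - x^(m+1) y^m) / ∏ (m ≥ 2 even) (1 - x^(m+1) y^m)`,
`β = (1+x) ∏ (m odd) (1 + (-1)^((m+1)/2) x^(m+1) y^m) / ∏ (m ≥ 2 even) (1 - (-1)^(m/2) x^(m+1) y^m)`,
`λ = ∏ (k ≥ 1) (1 - x^(4k+2) y^(4k+1)) / (1 - x^(4k+1) y^(4k))`.

The infinite products are truncated at `n`; the coefficient of `y^p` is the one of the full product
as soon as `n ≥ p`.
-/

set_option autoImplicit false

open Finset

namespace Pool.Agent.Results.MP_5f0aae_co.ClosedForm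

/-- a graph is homeomorphically irreducible if no point has degree two -/
def HomIrr {V : Type} (G : SimpleGraph V) : Prop := ∀ v, Nat.card (G.neighborSet v) ≠ 2

/-- isomorphism of homeomorphically irreducible graphs with `p` points and `q` lines -/
def iso (p q : ℕ) : Setoid {G : SimpleGraph (Fin p) // HomIrr G ∧ Nat.card G.edgeSet = q} where
  r G H := Nonempty (G.1 ≃g H.1)
  iseqv := ⟨fun _ => ⟨SimpleGraph.Iso.refl⟩, fun ⟨f⟩ => ⟨f.symm⟩, fun ⟨f⟩ ⟨g⟩ => ⟨f.trans g⟩⟩

/-- the number of isomorphism classes of homeomorphically irreducible graphs with `p` points and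
`q` lines -/
noncomputable def h (p q : ℕ) : ℕ := Nat.card (Quotient (iso p q))

variable {F : Type} [Field F]

/-- the power series `1 - c y ^ b` in `y` -/
noncomputable def fac (c : F) (b : ℕ) : PowerSeries F := 1 - PowerSeries.C c * PowerSeries.X ^ b

/-- `α(x^l, y^l)`, product truncated at `n` -/
noncomputable def alpha (x : F) (n l : ℕ) : PowerSeries F :=
  PowerSeries.C (1 + x ^ l) * ∏ m ∈ Icc 1 n, if Odd m then fac (x ^ (l * (m + 1))) (l * m)
    else (fac (x ^ (l * (m + 1))) (l * m))⁻¹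

/-- `β(x^l, y^l)`, product truncated at `n` -/
noncomputable def beta (x : F) (n l : ℕ) : PowerSeries F :=
  PowerSeries.C (1 + x ^ l) * ∏ m ∈ Icc 1 n,
    if Odd m then fac (-((-1) ^ ((m + 1) / 2) * x ^ (l * (m + 1)))) (l * m)
    else (fac ((-1) ^ (m / 2) * x ^ (l * (m + 1))) (l * m))⁻¹

/-- `λ(x^l, y^l)`, product truncated at `n` -/
noncomputable def lam (x : F) (n l : ℕ) : PowerSeries F :=
  ∏ k ∈ Icc 1 n, (fac (x ^ (l * (4 * k + 2))) (l * (4 * k + 1)) *
    (fac (x ^ (l * (4 * k + 1))) (l * (4 * k)))⁻¹)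

/-- the summand of a partition of `N` with `j k` parts equal to `k` -/
noncomputable def summand (x : F) (n N : ℕ) (j : ℕ → ℕ) : PowerSeries F :=
  PowerSeries.C (1 / ((∏ k ∈ Icc 1 N, (k ^ j k * (j k).factorial) : ℕ) : F)) *
  (∏ k ∈ Icc 1 N, (lam x n k ^ j k * alpha x n k ^ ((k - 1) / 2 * j k + k * (j k).choose 2) *
    (if Even k then beta x n (k / 2) ^ j k else 1))) *
  ∏ k ∈ Icc 1 N, ∏ l ∈ Icc (k + 1) N, alpha x n (k.lcm l) ^ (k.gcd l * j k * j l)

/-- the generating function, products and sum truncated at `n` -/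
noncomputable def H (x : F) (n : ℕ) : PowerSeries F :=
  (∏ k ∈ Icc 1 n, fac (x ^ (4 * k + 1)) (4 * k + 1)) *
    ∑ N ∈ range (n + 1), PowerSeries.X ^ N *
      ∑ π : N.Partition, summand x n N (fun k => π.parts.count k)

open Pool.Agent.TH349.HI in
theorem summand_eq (x : F) (n N : ℕ) (j : ℕ → ℕ) :
    summand x n N j = PowerSeries.C
      (1 / ((∏ k ∈ Icc 1 N, (k ^ j k * (j k).factorial) : ℕ) : F) * pgr x N j) *
        ppr x n N j := by
  have ha : ∀ l, alpha x n l = PowerSeries.C (1 + x ^ l) * al x n l := fun l => rfl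
  have hb : ∀ l, beta x n l = PowerSeries.C (1 + x ^ l) * be x n l := fun l => rfl
  have hl : ∀ l, lam x n l = la x n l := fun l => rfl
  unfold summand pgr ppr
  have h1 : ∀ k ∈ Icc 1 N,
      (lam x n k ^ j k * alpha x n k ^ ((k - 1) / 2 * j k + k * (j k).choose 2) *
        (if Even k then beta x n (k / 2) ^ j k else 1)) =
      PowerSeries.C ((1 + x ^ k) ^ ((k - 1) / 2 * j k + k * (j k).choose 2) *
        (if Even k then (1 + x ^ (k / 2)) ^ j k else 1)) *
      (la x n k ^ j k * al x n k ^ ((k - 1) / 2 * j k + k * (j k).choose 2) *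
        (if Even k then be x n (k / 2) ^ j k else 1)) := by
    intro k _
    rw [ha, hl, mul_pow, map_mul, map_pow]
    split_ifs
    · rw [hb, mul_pow, map_pow]
      ring
    · rw [map_one]
      ring
  have h2 : ∀ k ∈ Icc 1 N, ∏ l ∈ Icc (k + 1) N, alpha x n (k.lcm l) ^ (k.gcd l * j k * j l) =
      PowerSeries.C (∏ l ∈ Icc (k + 1) N, (1 + x ^ k.lcm l) ^ (k.gcd l * j k * j l)) *
      ∏ l ∈ Icc (k + 1) N, al x n (k.lcm l) ^ (k.gcd l * j k * j l) := by
    intro k _
    rw [map_prod, ← Finset.prod_mul_distrib]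
    apply Finset.prod_congr rfl
    intro l _
    rw [ha, mul_pow, map_pow]
  have h3 := (Finset.prod_congr (rfl : Icc 1 N = Icc 1 N) h1).trans Finset.prod_mul_distrib
  have h4 := (Finset.prod_congr (rfl : Icc 1 N = Icc 1 N) h2).trans Finset.prod_mul_distrib
  rw [← map_prod] at h3 h4
  rw [h3, h4, map_mul, map_mul]
  ring

/-- **Closed form** for the numbers of homeomorphically irreducible graphs: for all `p` and all
`n ≥ p`, the counting polynomial `∑ q, h p q x ^ q` is the coefficient of `y ^ p` in `H x n`. -/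
theorem result {F : Type} [Field F] [CharZero F] (x : F) (p n : ℕ) (hn : p ≤ n) :
    ∑ q ∈ range (p.choose 2 + 1), (h p q : F) * x ^ q = PowerSeries.coeff p (H x n) := by
  have h0 : ∀ q, h p q = Pool.Agent.TH349.HI.h p q := fun q => rfl
  simp_rw [h0]
  rw [Pool.Agent.TH349.HI.h_formula p n hn x]
  unfold H
  rw [Finset.mul_sum, map_sum]
  have h1 : ∀ N ∈ range (n + 1), PowerSeries.coeff p
      ((∏ k ∈ Icc 1 n, fac (x ^ (4 * k + 1)) (4 * k + 1)) * (PowerSeries.X ^ N *
      ∑ π : N.Partition, summand x n N (fun k => π.parts.count k))) =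
      if N ≤ p then ∑ π : N.Partition,
        1 / ((∏ k ∈ Icc 1 N, (k ^ π.parts.count k * (π.parts.count k).factorial) : ℕ) : F) *
          (Pool.Agent.TH349.HI.pgr x N (fun k => π.parts.count k) *
            PowerSeries.coeff (p - N) (Pool.Agent.TH349.HI.cy x n *
              Pool.Agent.TH349.HI.ppr x n N (fun k => π.parts.count k))) else 0 := by
    intro N _
    rw [mul_left_comm, PowerSeries.coeff_X_pow_mul']
    split_ifs with h
    · rw [Finset.mul_sum, map_sum]
      apply Finset.sum_congr rfl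
      intro π _
      have h3 : (∏ k ∈ Icc 1 n, fac (x ^ (4 * k + 1)) (4 * k + 1)) =
        Pool.Agent.TH349.HI.cy x n := rfl
      rw [summand_eq, h3, mul_left_comm, PowerSeries.coeff_C_mul, mul_assoc]
    · rfl
  rw [Finset.sum_congr rfl h1, ← Finset.sum_filter]
  apply Finset.sum_congr _ (fun _ _ => rfl)
  ext N
  simp only [mem_range, mem_filter]
  omega

end Pool.Agent.Results.MP_5f0aae_co.ClosedForm
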